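import Pool.Agent.Helper998.Near.Bridge
import Pool.Agent.Helper998.Near.InsideDom

set_option autoImplicit false

open Finset

namespace Pool.Agent.Results.MP_ff63d6_co.OffConnected

open Pool.Agent.Helper347.Sab

/-!
Strong circuit double covers of cubic graphs of circumference at least n - 1, for every circuit C
with G - V(C) connected, and for circuits C through the vertex v missed by the long circuit A,
whenever the edge at v outside C is not a bridge of G - E(A ∩ C).
-/

variable {V E : Type} [Fintype V] [DecidableEq V] [Fintype E] [DecidableEq E]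

/-- G - V(C) is connected or empty: any two vertices off C are joined by a path avoiding C. -/
def OffConnected (G : MGraph V E) (C : Finset E) : Prop :=
  ∀ a b : V, dg G C a = 0 → dg G C b = 0 →
    Relation.ReflTransGen (fun x y => dg G C y = 0 ∧ ∃ e, G.ends e = s(x, y)) a b

/-- Every edge has an end on the circuit C. -/
def Dominating (G : MGraph V E) (C : Finset E) : Prop :=
  ∀ e, ∃ v ∈ G.ends e, dg G C v = 2

/-- Every vertex of the circuit C is a vertex of the circuit C'. -/
def VertexSubset (G : MGraph V E) (C C' : Finset E) : Prop :=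
  ∀ v, dg G C v = 2 → dg G C' v = 2

/-- The circumference of G is at least (number of vertices) - 1. -/
def NearHamiltonian (G : MGraph V E) : Prop :=
  ∃ A : Finset E, IsCircuit G A ∧ Fintype.card V ≤ A.card + 1

/-- At every vertex v of C missed by A, the edge at v outside C is not a bridge of the graph
G - (E(A) ∩ E(C)): it lies on a circuit D that has no edge in both A and C. -/
def ThirdEdgeNotBridge (G : MGraph V E) (A C : Finset E) : Prop :=
  ∀ v, dg G A v = 0 → dg G C v = 2 → ∀ e, v ∈ G.ends e → e ∉ C →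
    ∃ D : Finset E, IsCircuit G D ∧ e ∈ D ∧ ∀ f ∈ D, ¬ (f ∈ A ∧ f ∈ C)

/-- All vertices missed by A are on C, and the even set D contains the edges at them outside C but
no edge in both A and C. -/
def Joined (G : MGraph V E) (A C D : Finset E) : Prop :=
  (∀ v, Even (dg G D v)) ∧ (∀ f ∈ D, ¬ (f ∈ A ∧ f ∈ C)) ∧
    ∀ v, dg G A v = 0 → dg G C v = 2 ∧ ∀ e, v ∈ G.ends e → e ∉ C → e ∈ D

theorem off_case (G : MGraph V E) (hG : IsCubic G) (C A : Finset E) (hC : IsCircuit G C)
    (hA : IsCircuit G A) (hlen : Fintype.card V ≤ A.card + 1)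
    (h : OffConnected G C) (hv : ∀ v, dg G A v = 0 → dg G C v = 2) :
    ∃ F : Finset (Finset E), MP_0c3aa4_co.ThroughDominating.IsCycleDoubleCover G F ∧
      ∀ D, IsCircuit G D → D ⊆ C → D ∈ F := by
  classical
  obtain ⟨B, hB1, hB2⟩ := Pool.Agent.Helper998.Near.trail_flow G C A
    (Pool.Agent.Helper998.Near.ev_circuit G A hA)
    (Pool.Agent.Helper998.Near.union_connected G C A hA
      (Pool.Agent.Helper998.Near.one_off G A hA hlen) hv)
  obtain ⟨F, hF⟩ : ∃ F : Finset E, F = univ.filter fun e => e ∉ C ∧ ∃ v ∈ G.ends e, dg G C v = 0 :=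
    ⟨_, rfl⟩
  have hFm : ∀ e, e ∈ F ↔ e ∉ C ∧ ∃ v ∈ G.ends e, dg G C v = 0 := by
    intro e; rw [hF]; simp
  refine Pool.Agent.Helper998.Near.one_bridge G hG C A B hC
    (Pool.Agent.Helper998.Near.ev_circuit G A hA) hB1 hB2 F hFm ?_
  have hto : ∀ a, 0 < dg G F a → ∃ a', dg G C a' = 0 ∧
      Pool.Agent.Helper998.Near.Rch G F a a' ∧ Pool.Agent.Helper998.Near.Rch G F a' a := by
    intro a ha
    obtain ⟨e, he, hae⟩ := exists_mem_of_dg_pos ha
    obtain ⟨hec, v, hve, hv0⟩ := (hFm e).1 he
    by_cases hav : a = v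
    · exact ⟨a, by rw [hav]; exact hv0, Relation.ReflTransGen.refl, Relation.ReflTransGen.refl⟩
    · refine ⟨v, hv0, Relation.ReflTransGen.single ⟨e, he, ?_⟩,
        Relation.ReflTransGen.single ⟨e, he, ?_⟩⟩
      · exact (Sym2.mem_and_mem_iff hav).1 ⟨hae, hve⟩
      · exact (Sym2.mem_and_mem_iff (Ne.symm hav)).1 ⟨hve, hae⟩
  intro a b ha hb
  obtain ⟨a', ha0, ha1, _⟩ := hto a ha
  obtain ⟨b', hb0, hb1, hb2⟩ := hto b hb
  refine (ha1.trans ?_).trans hb2
  have hp := h a' b' ha0 hb0
  clear hb1 hb2 hb0 ha1 hb ha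
  induction hp with
  | refl => exact Relation.ReflTransGen.refl
  | tail _ h1 ih =>
    obtain ⟨h2, e, he⟩ := h1
    refine ih.tail ⟨e, (hFm e).2 ⟨?_, _, ?_, h2⟩, he⟩
    · intro hec
      have := dg_pos_of_mem (G := G) hec (show _ ∈ G.ends e by rw [he]; exact Sym2.mem_mk_right _ _)
      omega
    · rw [he]; exact Sym2.mem_mk_right _ _

/-- Let G be a cubic multigraph of circumference at least n - 1 and C a circuit of G. If
G - V(C) is connected (or empty), or the edge outside C at the vertex missed by some circuit A of length at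
least n - 1 is not a bridge of G - (E(A) ∩ E(C)), or Joined G A C D for some circuit A and some D,
or the vertices of C lie on a circuit that is dominating or has length at least n - 2, then G has a
circuit double cover containing C. -/
theorem result {V E : Type} [Fintype V] [DecidableEq V] [Fintype E] [DecidableEq E]
    (G : MGraph V E) (hG : IsCubic G) (hn : NearHamiltonian G)
    (C : Finset E) (hC : IsCircuit G C)
    (h : OffConnected G C ∨
      (∃ A : Finset E, IsCircuit G A ∧ Fintype.card V ≤ A.card + 1 ∧ ThirdEdgeNotBridge G A C) ∨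
      (∃ A D : Finset E, IsCircuit G A ∧ Joined G A C D) ∨
      (∃ C' : Finset E, IsCircuit G C' ∧ VertexSubset G C C' ∧
        (Dominating G C' ∨ Fintype.card V ≤ C'.card + 2))) :
    ∃ F : Multiset (Finset E), IsCDC G F ∧ C ∈ F := by
  have hconv : (∃ F : Finset (Finset E),
      MP_0c3aa4_co.ThroughDominating.IsCycleDoubleCover G F ∧
      ∀ D, IsCircuit G D → D ⊆ C → D ∈ F) → ∃ F : Multiset (Finset E), IsCDC G F ∧ C ∈ F := by
    rintro ⟨F, hF, hCF⟩
    refine ⟨F.val, ⟨fun X hX => hF.1 X hX, fun e => ?_⟩, hCF C hC (Subset.refl _)⟩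
    rw [Multiset.countP_eq_card_filter]
    exact hF.2 e
  rcases h with h | ⟨A, hA, hlen, h⟩ | ⟨A, D, hA, h1, h2, h3⟩ | h
  · obtain ⟨A, hA, hlen⟩ := id hn
    by_cases hv : ∀ v, dg G A v = 0 → dg G C v = 2
    · exact hconv (off_case G hG C A hC hA hlen h hv)
    · push Not at hv
      obtain ⟨x, hx, hCx⟩ := hv
      refine MP_ff63d6_co.InsideDominating.result G hG hn C hC ⟨A, hA, ?_, Or.inr (by omega)⟩
      intro v hv2
      rcases hA.2.1 v with h0 | h0
      · have := Pool.Agent.Helper998.Near.one_off G A hA hlen x v hx h0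
        subst this
        exact absurd hv2 hCx
      · exact h0
  · by_cases hv : ∃ v, dg G A v = 0 ∧ dg G C v = 2
    · obtain ⟨v, hv1, hv2⟩ := hv
      have hone := Pool.Agent.Helper998.Near.one_off G A hA hlen
      have hsp := Pool.Agent.Helper998.Near.dg_split G univ C v
      rw [univ_inter, hG v, hv2] at hsp
      obtain ⟨e, he⟩ : ∃ e, ((univ \ C).filter fun e => v ∈ G.ends e) = {e} := by
        rw [← card_eq_one]
        show dg G (univ \ C) v = 1
        omega
      have hmem : ∀ f, v ∈ G.ends f → f ∉ C → f = e := by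
        intro f hf1 hf2
        have : f ∈ ((univ \ C).filter fun e => v ∈ G.ends e) := by
          rw [mem_filter, mem_sdiff]; exact ⟨⟨mem_univ _, hf2⟩, hf1⟩
        rw [he, mem_singleton] at this
        exact this
      have hee : e ∈ ((univ \ C).filter fun e => v ∈ G.ends e) := by rw [he]; simp
      rw [mem_filter, mem_sdiff] at hee
      obtain ⟨D, hD1, hD2, hD3⟩ := h v hv1 hv2 e hee.2 hee.1.2
      refine hconv (Pool.Agent.Helper998.Near.criterion G hG C A D hC.2.1 hA
        (Pool.Agent.Helper998.Near.ev_circuit G D hD1) ?_ ?_ ?_)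
      · intro w hw
        rw [hone w v hw hv1]
        exact hv2
      · intro f hf hfC hfA
        exact hD3 f hf ⟨hfA, hfC⟩
      · intro w hw f hwf hfC
        have := hone w v hw hv1
        subst this
        rw [hmem f hwf hfC]
        exact hD2
    · refine MP_ff63d6_co.InsideDominating.result G hG hn C hC ⟨A, hA, ?_, Or.inr (by omega)⟩
      intro v hv2
      rcases hA.2.1 v with h0 | h0
      · exact absurd ⟨v, h0, hv2⟩ hv
      · exact h0
  · refine hconv (Pool.Agent.Helper998.Near.criterion G hG C A D hC.2.1 hA h1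
      (fun v hv => (h3 v hv).1) ?_ (fun v hv => (h3 v hv).2))
    intro f hf hfC hfA
    exact h2 f hf ⟨hfA, hfC⟩
  · exact MP_ff63d6_co.InsideDominating.result G hG hn C hC h

end Pool.Agent.Results.MP_ff63d6_co.OffConnected
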